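import Pool.Agent.Y744.PCR.ConnB

set_option autoImplicit false

/-!
# The predicted integral for test functions of all supports (helper15, for helper12)
-/

namespace Pool.Agent.L5helper15.PVAG

open MeasureTheory Filter Topology Real
open H370.A2

/-- the integral of the transform against the pair density (after `H370.A2.main_term`) -/
theorem split_term {ψ : ℝ → ℝ} {μ : ℝ} (hψ : Continuous ψ) (hz : ∀ x, μ ≤ |x| → ψ x = 0)
    {C : ℝ} (hC : ∀ x, |RR ψ μ x| * x ^ 2 ≤ C) :
    ∫ x, RR ψ μ x * (1 - (Real.sin (Real.pi * x) / (Real.pi * x)) ^ 2) =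
      ψ 0 - ∫ β in (-1 : ℝ)..1, (1 - |β|) * evp ψ β := by
  have hRi := RR_integrable hψ hz hC
  have hRc := RR_cont (μ := μ) hψ
  have hev : Continuous (evp ψ) := evp_cont hψ
  -- the integral against the Fejér kernel
  have hK : ∫ x, RR ψ μ x * (Real.sin (Real.pi * x) / (Real.pi * x)) ^ 2 =
      ∫ β in (-1 : ℝ)..1, (1 - |β|) * evp ψ β := by
    have h1 : ∫ x, RR ψ μ x * (Real.sin (Real.pi * x) / (Real.pi * x)) ^ 2 =
        ∫ x, ∫ β in Set.Ioc (-1 : ℝ) 1, RR ψ μ x * ((1 - |β|) * Real.cos (2 * Real.pi * x * β)) := by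
      refine integral_congr_ae ?_
      have h0 : ∀ᵐ x : ℝ, x ≠ 0 := by
        rw [ae_iff]
        simp
      filter_upwards [h0] with x hx
      rw [← fejer hx, intervalIntegral.integral_of_le (by norm_num), integral_const_mul]
    have hint : Integrable (Function.uncurry fun x β : ℝ =>
        RR ψ μ x * ((1 - |β|) * Real.cos (2 * Real.pi * x * β)))
        (volume.prod (volume.restrict (Set.Ioc (-1 : ℝ) 1))) := by
      have hc1 : Integrable (fun β : ℝ => 1 - |β|) (volume.restrict (Set.Ioc (-1 : ℝ) 1)) :=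
        ((by fun_prop : Continuous fun β : ℝ => 1 - |β|).integrableOn_Icc).mono_set
          Set.Ioc_subset_Icc_self
      refine (hRi.norm.mul_prod hc1.norm).mono' ?_ (Filter.Eventually.of_forall fun z => ?_)
      · apply Continuous.aestronglyMeasurable
        unfold Function.uncurry
        fun_prop
      · simp only [Function.uncurry]
        rw [norm_mul, norm_mul]
        have := Real.abs_cos_le_one (2 * Real.pi * z.1 * z.2)
        rw [← Real.norm_eq_abs] at this
        calc ‖RR ψ μ z.1‖ * (‖1 - |z.2|‖ * ‖Real.cos (2 * Real.pi * z.1 * z.2)‖) ≤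
            ‖RR ψ μ z.1‖ * (‖1 - |z.2|‖ * 1) := by gcongr
          _ = _ := by ring
    rw [h1, integral_integral_swap hint, intervalIntegral.integral_of_le (by norm_num)]
    refine integral_congr_ae (Filter.Eventually.of_forall fun β => ?_)
    show ∫ x, RR ψ μ x * ((1 - |β|) * Real.cos (2 * Real.pi * x * β)) = (1 - |β|) * evp ψ β
    rw [← RR_inv hψ hz hC β, ← integral_const_mul]
    refine integral_congr_ae (Filter.Eventually.of_forall fun x => ?_)
    show RR ψ μ x * ((1 - |β|) * Real.cos (2 * Real.pi * x * β)) = _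
    ring
  have h0 : ∫ x, RR ψ μ x = ψ 0 := by
    have h1 := RR_inv hψ hz hC 0
    simp only [mul_zero, Real.cos_zero, mul_one] at h1
    rw [h1]
    unfold evp
    simp
  have hsi : Integrable fun x => RR ψ μ x * (Real.sin (Real.pi * x) / (Real.pi * x)) ^ 2 := by
    refine hRi.norm.mono' ?_ (Filter.Eventually.of_forall fun x => ?_)
    · apply hRc.aestronglyMeasurable.mul
      apply Measurable.aestronglyMeasurable
      fun_prop
    · rw [norm_mul, norm_pow]
      have : ‖Real.sin (Real.pi * x) / (Real.pi * x)‖ ≤ 1 := by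
        rw [norm_div, Real.norm_eq_abs, Real.norm_eq_abs]
        exact div_le_one_of_le₀ Real.abs_sin_le_abs (abs_nonneg _)
      have h2 : ‖Real.sin (Real.pi * x) / (Real.pi * x)‖ ^ 2 ≤ 1 := pow_le_one₀ (norm_nonneg _) this
      exact mul_le_of_le_one_right (norm_nonneg _) h2
  rw [← h0, ← hK, ← integral_sub hRi hsi]
  refine integral_congr_ae (Filter.Eventually.of_forall fun x => ?_)
  show RR ψ μ x * (1 - (Real.sin (Real.pi * x) / (Real.pi * x)) ^ 2) = _
  ring

open Pool.Agent.Y744

theorem AG_all {κ : ℝ} {K : ℝ → ℝ} (hK : Pool.Agent.Y744.TK κ K) (hκ : 0 < κ) {h : ℝ}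
    (hh : 0 < h) (M : ℝ) (hM : κ ≤ M) (hM1 : 1 ≤ M) :
    ∫ y, Pool.Agent.Y744.AG y * (Pool.Agent.Y744.ct K (y + h) - Pool.Agent.Y744.ct K (y - h)) =
      -(Pool.Agent.Y744.Kav K h 0 + 2 * ∫ α in (0 : ℝ)..M, Pool.Agent.Y744.Kav K h α * min α 1) := by
  rw [AG_int hK hh]
  obtain ⟨ψ, hψd⟩ : ∃ ψ : ℝ → ℝ, ψ = Kav K h := ⟨_, rfl⟩
  have hψ : Continuous ψ := by rw [hψd]; exact Kav_cont hK
  have hψe : ∀ x, ψ (-x) = ψ x := by rw [hψd]; exact Kav_even hK
  have hψs : ∀ x, κ < |x| → ψ x = 0 := by rw [hψd]; exact Kav_supp hK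
  have hz : ∀ x, M + 1 ≤ |x| → ψ x = 0 := fun x hx => hψs x (by linarith)
  -- the transform
  have hfav : ∀ x, fav K h x = ∫ α in (-(M + 1))..(M + 1), ψ α * Real.cos (2 * π * α * x) := by
    intro x
    rw [fav_eq hK hh, ← hψd]
    unfold ct
    rw [← intervalIntegral.integral_eq_integral_of_support_subset
      (a := -(M + 1)) (b := M + 1) (f := fun α => ψ α * Real.cos (2 * π * x * α))]
    · refine intervalIntegral.integral_congr fun α _ => ?_
      show ψ α * Real.cos (2 * π * x * α) = ψ α * Real.cos (2 * π * α * x)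
      congr 2
      ring
    · intro α hα
      by_contra hc
      apply hα
      show ψ α * Real.cos (2 * π * x * α) = 0
      rw [hz α, zero_mul]
      by_contra h2
      push Not at h2
      obtain ⟨h3, h4⟩ := abs_lt.1 h2
      exact hc ⟨by linarith, by linarith⟩
  have hRR : ∀ x, RR ψ (M + 1) x = fav K h x := by
    intro x
    rw [hfav]
    unfold RR
    rfl
  obtain ⟨D, hD0, hD⟩ := fav_decay hK hh
  have h1 := split_term (ψ := ψ) (μ := M + 1) (C := D) hψ hz (fun x => by
      rw [hRR]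
      have h2 : |fav K h x| * x ^ 2 ≤ D / (1 + x ^ 2) ^ 2 * x ^ 2 :=
        mul_le_mul_of_nonneg_right (hD x) (sq_nonneg x)
      refine h2.trans ?_
      rw [div_mul_eq_mul_div, div_le_iff₀ (by positivity)]
      refine mul_le_mul_of_nonneg_left ?_ hD0
      nlinarith [sq_nonneg x, sq_nonneg (x ^ 2)])
  simp_rw [hRR] at h1
  have h2 : ∫ y, fav K h y * gd y =
      ∫ x, fav K h x * (1 - (Real.sin (π * x) / (π * x)) ^ 2) := by
    refine integral_congr_ae ?_
    have h0 : ∀ᵐ x : ℝ, x ≠ 0 := by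
      rw [ae_iff]
      simp
    filter_upwards [h0] with x hx
    unfold gd
    have hpi := Real.pi_pos
    rw [Real.sinc_of_ne_zero (by positivity)]
  rw [h2, h1]
  -- even functions
  have hevp : ∀ β, evp ψ β = ψ β := by
    intro β
    unfold evp
    rw [hψe]
    ring
  have h3 : ∫ β in (-1 : ℝ)..1, (1 - |β|) * evp ψ β = 2 * ∫ β in (0 : ℝ)..1, (1 - β) * ψ β := by
    rw [H370.A2.int_sym (fun β => (1 - |β|) * evp ψ β) ((by fun_prop : Continuous fun β : ℝ =>
      1 - |β|).mul (evp_cont hψ)) 1, ← intervalIntegral.integral_const_mul]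
    refine intervalIntegral.integral_congr fun β hβ => ?_
    rw [Set.uIcc_of_le zero_le_one] at hβ
    show (1 - |β|) * evp ψ β + (1 - |-β|) * evp ψ (-β) = 2 * ((1 - β) * ψ β)
    rw [hevp, hevp, hψe, abs_neg, abs_of_nonneg hβ.1]
    ring
  have h4 : fav K h 0 = 2 * ∫ β in (0 : ℝ)..M, ψ β := by
    rw [hfav]
    simp only [mul_zero, Real.cos_zero, mul_one]
    rw [H370.A2.int_sym (fun β => ψ β) hψ (M + 1)]
    have e1 : ∀ β ∈ Set.uIcc (0 : ℝ) (M + 1), ψ β + ψ (-β) = 2 * ψ β := by
      intro β _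
      rw [hψe]; ring
    rw [intervalIntegral.integral_congr e1, intervalIntegral.integral_const_mul]
    congr 1
    rw [← intervalIntegral.integral_add_adjacent_intervals (a := 0) (b := M) (c := M + 1)
      (hψ.intervalIntegrable _ _) (hψ.intervalIntegrable _ _)]
    have e2 : ∫ β in M..(M + 1), ψ β = 0 := by
      rw [intervalIntegral.integral_of_le (by linarith)]
      refine setIntegral_eq_zero_of_forall_eq_zero fun β hβ => ?_
      apply hψs
      rw [abs_of_pos (by linarith [hβ.1])]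
      linarith [hβ.1]
    rw [e2, add_zero]
  have h5 : ∫ α in (0 : ℝ)..M, ψ α * min α 1 =
      (∫ β in (0 : ℝ)..M, ψ β) - ∫ β in (0 : ℝ)..1, (1 - β) * ψ β := by
    have c1 : Continuous fun α : ℝ => ψ α * min α 1 := hψ.mul (by fun_prop)
    have c2 : Continuous fun β : ℝ => (1 - β) * ψ β := (by fun_prop : Continuous fun β : ℝ =>
      1 - β).mul hψ
    rw [← intervalIntegral.integral_add_adjacent_intervals (a := 0) (b := 1) (c := M)
      (c1.intervalIntegrable _ _) (c1.intervalIntegrable _ _),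
      ← intervalIntegral.integral_add_adjacent_intervals (a := 0) (b := 1) (c := M)
      (hψ.intervalIntegrable _ _) (hψ.intervalIntegrable _ _)]
    have e1 : ∫ α in (0 : ℝ)..1, ψ α * min α 1 =
        (∫ β in (0 : ℝ)..1, ψ β) - ∫ β in (0 : ℝ)..1, (1 - β) * ψ β := by
      rw [← intervalIntegral.integral_sub (hψ.intervalIntegrable _ _)
        (c2.intervalIntegrable _ _)]
      refine intervalIntegral.integral_congr fun α hα => ?_
      rw [Set.uIcc_of_le zero_le_one] at hα
      show ψ α * min α 1 = ψ α - (1 - α) * ψ α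
      rw [min_eq_left hα.2]
      ring
    have e2 : ∫ α in (1 : ℝ)..M, ψ α * min α 1 = ∫ β in (1 : ℝ)..M, ψ β := by
      refine intervalIntegral.integral_congr fun α hα => ?_
      rw [Set.uIcc_of_le hM1] at hα
      show ψ α * min α 1 = ψ α
      rw [min_eq_right hα.1, mul_one]
    rw [e1, e2]
    ring
  rw [← hψd, h3, h4, h5]
  ring

end Pool.Agent.L5helper15.PVAG
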