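import Pool.Agent.L5helper64.GPLink

/-!
# The digits of the random profinite integers are independent and uniform

For helper32 (`GP/Link.lean`); `digit` is the definition of that file, in the copy of helper64.
-/

set_option autoImplicit false

open Finset MeasureTheory ProbabilityTheory

namespace Pool.Agent.L5helper15.GPLink

open Pool.Agent.L5helper32.GP Pool.Agent.L5helper64.GPLink

/-! ### Numbers and their digits -/

theorem tr_succ (D : ℕ → ℕ → ℕ) (r v : ℕ) : tr D r (v + 1) = tr D r v + D r v * r ^ v := by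
  unfold tr
  rw [sum_range_succ]

theorem tr_lt (D : ℕ → ℕ → ℕ) {r : ℕ} (v : ℕ) (h : ∀ k < v, D r k < r) : tr D r v < r ^ v := by
  induction v with
  | zero => simp [tr]
  | succ v ih =>
    rw [tr_succ, pow_succ]
    have h1 := ih fun k hk => h k (by omega)
    have h2 : D r v + 1 ≤ r := h v (by omega)
    calc tr D r v + D r v * r ^ v < r ^ v + D r v * r ^ v := by omega
      _ = r ^ v * (D r v + 1) := by ring
      _ ≤ r ^ v * r := Nat.mul_le_mul_left _ h2

theorem tr_modEq (D : ℕ → ℕ → ℕ) (r : ℕ) {j K : ℕ} (h : j ≤ K) : tr D r K ≡ tr D r j [MOD r ^ j] := by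
  induction K, h using Nat.le_induction with
  | base => rfl
  | succ K hK ih =>
    rw [tr_succ]
    have h1 : D r K * r ^ K ≡ 0 [MOD r ^ j] :=
      (Nat.modEq_zero_iff_dvd).2 (Dvd.dvd.mul_left (pow_dvd_pow r hK) _)
    have h2 := ih.add h1
    rwa [add_zero] at h2

theorem modEq_prod (R : Finset ℕ) (hR : ∀ r ∈ R, r.Prime) (K : ℕ) (a b : ℕ)
    (h : ∀ r ∈ R, a ≡ b [MOD r ^ K]) : a ≡ b [MOD ∏ r ∈ R, r ^ K] := by
  rw [Nat.modEq_iff_dvd]
  push_cast
  refine Finset.prod_dvd_of_coprime ?_ fun r hr => ?_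
  · intro r hr s hs hrs
    have h1 : Nat.Coprime (r ^ K) (s ^ K) :=
      Nat.Coprime.pow _ _ ((Nat.coprime_primes (hR r hr) (hR s hs)).2 hrs)
    have h2 := Nat.isCoprime_iff_coprime.2 h1
    push_cast at h2
    exact h2
  · have h1 := (Nat.modEq_iff_dvd).1 (h r hr)
    push_cast at h1
    exact h1

theorem exists_res (R : Finset ℕ) (hR : ∀ r ∈ R, r.Prime) (K : ℕ) (D : ℕ → ℕ → ℕ) :
    ∃ t < ∏ r ∈ R, r ^ K, ∀ r ∈ R, t ≡ tr D r K [MOD r ^ K] := by
  have hs : ∀ r ∈ R, r ^ K ≠ 0 := fun r hr => (pow_pos (hR r hr).pos K).ne'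
  have pp : Set.Pairwise (R : Set ℕ) (Function.onFun Nat.Coprime fun r => r ^ K) := by
    intro r hr s hs hrs
    exact Nat.Coprime.pow _ _ ((Nat.coprime_primes (hR r hr) (hR s hs)).2 hrs)
  exact ⟨Nat.chineseRemainderOfFinset (fun r => tr D r K) (fun r => r ^ K) R hs pp,
    Nat.chineseRemainderOfFinset_lt_prod _ _ hs pp,
    (Nat.chineseRemainderOfFinset (fun r => tr D r K) (fun r => r ^ K) R hs pp).2⟩

/-! ### The digits -/

variable {Ω : Type} [MeasurableSpace Ω] {μ : Measure Ω} {U : ℕ → ℕ → Ω → ℕ}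

theorem digit_meas (h : Prof μ U) (i : ℕ × ℕ × ℕ) : Measurable (digit U i) := by
  unfold digit
  by_cases hp : i.2.1.Prime
  · simp only [hp, if_true]
    exact (measurable_from_top (f := fun x : ℕ => x / i.2.1 ^ i.2.2)).comp (h.meas _ _)
  · simp only [hp, if_false]
    exact measurable_const

theorem U_lt (h : Prof μ U) (c : ℕ) {m : ℕ} (hm : 0 < m) (ω : Ω) : U c m ω < m := by
  rw [h.compat c m m hm dvd_rfl ω]
  exact Nat.mod_lt _ hm

omit [MeasurableSpace Ω] in
theorem digit_eq {c r k : ℕ} (hr : r.Prime) (ω : Ω) :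
    digit U (c, r, k) ω = U c (r ^ (k + 1)) ω / r ^ k := by
  unfold digit
  rw [if_pos hr]

omit [MeasurableSpace Ω] in
theorem digit_ne {c r k : ℕ} (hr : ¬ r.Prime) (ω : Ω) : digit U (c, r, k) ω = 0 := by
  unfold digit
  rw [if_neg hr]

theorem digit_lt (h : Prof μ U) {c r k : ℕ} (hr : r.Prime) (ω : Ω) : digit U (c, r, k) ω < r := by
  rw [digit_eq hr, Nat.div_lt_iff_lt_mul (pow_pos hr.pos k), mul_comm, ← pow_succ]
  exact U_lt h c (pow_pos hr.pos _) ω

theorem digit_unif [IsProbabilityMeasure μ] (h : Prof μ U) (c r k : ℕ) (hr : r.Prime) :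
    ∀ t < r, μ.real {ω | digit U (c, r, k) ω = t} = 1 / r := by
  intro t ht
  have hrk : 0 < r ^ k := pow_pos hr.pos k
  have hr0 : (r : ℝ) ≠ 0 := by exact_mod_cast hr.ne_zero
  have hset : {ω | digit U (c, r, k) ω = t} =
      ⋃ s ∈ Finset.Ico (t * r ^ k) ((t + 1) * r ^ k), {ω | U c (r ^ (k + 1)) ω = s} := by
    ext ω
    simp only [Set.mem_setOf_eq, Set.mem_iUnion, Finset.mem_Ico, exists_prop, exists_eq_right']
    rw [digit_eq hr, Nat.div_eq_iff hrk]
    constructor
    · rintro ⟨h1, h2⟩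
      refine ⟨h1, ?_⟩
      have : (t + 1) * r ^ k = t * r ^ k + r ^ k := by ring
      omega
    · rintro ⟨h1, h2⟩
      refine ⟨h1, ?_⟩
      have : (t + 1) * r ^ k = t * r ^ k + r ^ k := by ring
      omega
  rw [hset, measureReal_biUnion_finset]
  · have h1 : ∀ s ∈ Finset.Ico (t * r ^ k) ((t + 1) * r ^ k),
        μ.real {ω | U c (r ^ (k + 1)) ω = s} = 1 / ((r ^ (k + 1) : ℕ) : ℝ) := by
      intro s hs
      refine h.unif c _ (pow_pos hr.pos _) s ?_
      have h2 := (Finset.mem_Ico.1 hs).2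
      have h3 : (t + 1) * r ^ k ≤ r * r ^ k := Nat.mul_le_mul_right _ ht
      rw [pow_succ, mul_comm (r ^ k)]
      omega
    rw [Finset.sum_congr rfl h1, Finset.sum_const, Nat.card_Ico, nsmul_eq_mul]
    have h4 : (t + 1) * r ^ k - t * r ^ k = r ^ k := by
      have : (t + 1) * r ^ k = t * r ^ k + r ^ k := by ring
      omega
    rw [h4]
    push_cast
    rw [pow_succ]
    field_simp
  · intro a _ b _ hab
    rw [Function.onFun, Set.disjoint_left]
    intro ω h1 h2
    exact hab (h1.symm.trans h2)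
  · intro s _
    exact h.meas c _ (measurableSet_singleton s)

theorem crt [IsProbabilityMeasure μ] (h : Prof μ U) (c : ℕ) (R : Finset ℕ) (hR : ∀ r ∈ R, r.Prime)
    (K : ℕ) (D : ℕ → ℕ → ℕ) (hD : ∀ r ∈ R, ∀ k < K, D r k < r) :
    μ.real {ω | ∀ r ∈ R, ∀ k < K, digit U (c, r, k) ω = D r k} = 1 / ∏ r ∈ R, (r : ℝ) ^ K := by
  obtain ⟨t, htlt, ht⟩ := exists_res R hR K D
  have hN : 0 < ∏ r ∈ R, r ^ K := Finset.prod_pos fun r hr => pow_pos (hR r hr).pos K
  have hdvd : ∀ r ∈ R, ∀ j ≤ K, r ^ j ∣ ∏ r ∈ R, r ^ K := fun r hr j hj =>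
    (pow_dvd_pow r hj).trans (Finset.dvd_prod_of_mem (fun r => r ^ K) hr)
  have hset : {ω | ∀ r ∈ R, ∀ k < K, digit U (c, r, k) ω = D r k} =
      {ω | U c (∏ r ∈ R, r ^ K) ω = t} := by
    ext ω
    simp only [Set.mem_setOf_eq]
    constructor
    · intro hω
      have h1 : U c (∏ r ∈ R, r ^ K) ω ≡ t [MOD ∏ r ∈ R, r ^ K] := by
        refine modEq_prod R hR K _ _ fun r hr => ?_
        have h2 : U c (r ^ K) ω = tr D r K := by
          rw [← tr_digit h ω c (hR r hr) K]
          unfold tr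
          exact Finset.sum_congr rfl fun k hk => by
            rw [show res (digit U) ω c r k = digit U (c, r, k) ω from rfl, hω r hr k (Finset.mem_range.1 hk)]
        have h3 := h.compat c (r ^ K) _ hN (hdvd r hr K le_rfl) ω
        rw [h2] at h3
        refine Nat.ModEq.trans ?_ (ht r hr).symm
        rw [h3]
        exact (Nat.mod_modEq _ _).symm
      exact Nat.ModEq.eq_of_lt_of_lt h1 (U_lt h c hN ω) htlt
    · intro hω r hr k hk
      have hp := hR r hr
      rw [digit_eq hp, h.compat c (r ^ (k + 1)) _ hN (hdvd r hr (k + 1) hk) ω, hω]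
      have h1 : t ≡ tr D r (k + 1) [MOD r ^ (k + 1)] :=
        ((ht r hr).of_dvd (pow_dvd_pow r hk)).trans (tr_modEq D r hk)
      have h2 : t % r ^ (k + 1) = tr D r (k + 1) := by
        rw [h1, Nat.mod_eq_of_lt (tr_lt D (k + 1) fun j hj => hD r hr j (by omega))]
      rw [h2, tr_succ, Nat.add_mul_div_right _ _ (pow_pos hp.pos k),
        Nat.div_eq_of_lt (tr_lt D k fun j hj => hD r hr j (by omega)), zero_add]
  rw [hset, h.unif c _ hN t htlt]
  push_cast
  rfl

theorem box [IsProbabilityMeasure μ] (h : Prof μ U) (c N K : ℕ) (D : ℕ → ℕ → ℕ) :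
    μ.real {ω | ∀ r < N, ∀ k < K, digit U (c, r, k) ω = D r k} =
      ∏ r ∈ range N, ∏ k ∈ range K, μ.real {ω | digit U (c, r, k) ω = D r k} := by
  by_cases hbad : ∃ r < N, ∃ k < K, {ω | digit U (c, r, k) ω = D r k} = ∅
  · obtain ⟨r, hr, k, hk, he⟩ := hbad
    have h1 : {ω | ∀ r < N, ∀ k < K, digit U (c, r, k) ω = D r k} = ∅ := by
      rw [Set.eq_empty_iff_forall_notMem] at he ⊢
      intro ω hω
      exact he ω (hω r hr k hk)
    rw [h1, measureReal_empty]
    symm
    refine Finset.prod_eq_zero (Finset.mem_range.2 hr) (Finset.prod_eq_zero (Finset.mem_range.2 hk) ?_)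
    rw [he, measureReal_empty]
  · push Not at hbad
    have hD : ∀ r ∈ (range N).filter Nat.Prime, ∀ k < K, D r k < r := by
      intro r hr k hk
      obtain ⟨h1, h2⟩ := Finset.mem_filter.1 hr
      obtain ⟨ω, hω⟩ := hbad r (Finset.mem_range.1 h1) k hk
      rw [← show digit U (c, r, k) ω = D r k from hω]
      exact digit_lt h h2 ω
    have hD0 : ∀ r < N, ¬ r.Prime → ∀ k < K, D r k = 0 := by
      intro r hr hp k hk
      obtain ⟨ω, hω⟩ := hbad r hr k hk
      rw [← show digit U (c, r, k) ω = D r k from hω]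
      exact digit_ne hp ω
    have hset : {ω | ∀ r < N, ∀ k < K, digit U (c, r, k) ω = D r k} =
        {ω | ∀ r ∈ (range N).filter Nat.Prime, ∀ k < K, digit U (c, r, k) ω = D r k} := by
      ext ω
      simp only [Set.mem_setOf_eq]
      constructor
      · intro hω r hr
        exact hω r (Finset.mem_range.1 (Finset.mem_filter.1 hr).1)
      · intro hω r hr k hk
        by_cases hp : r.Prime
        · exact hω r (Finset.mem_filter.2 ⟨Finset.mem_range.2 hr, hp⟩) k hk
        · rw [digit_ne hp, hD0 r hr hp k hk]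
    rw [hset, crt h c _ (fun r hr => (Finset.mem_filter.1 hr).2) K D hD, Finset.prod_filter,
      one_div, ← Finset.prod_inv_distrib]
    refine Finset.prod_congr rfl fun r hr => ?_
    split_ifs with hp
    · rw [Finset.prod_congr rfl fun k hk => digit_unif h c r k hp (D r k)
        (hD r (Finset.mem_filter.2 ⟨hr, hp⟩) k (Finset.mem_range.1 hk)), Finset.prod_const,
        Finset.card_range, one_div, inv_pow]
    · rw [inv_one]
      symm
      refine Finset.prod_eq_one fun k hk => ?_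
      have h1 : {ω | digit U (c, r, k) ω = D r k} = Set.univ := by
        ext ω
        simp [digit_ne hp, hD0 r (Finset.mem_range.1 hr) hp k (Finset.mem_range.1 hk)]
      rw [h1, probReal_univ]

theorem indep_box [IsProbabilityMeasure μ] (h : Prof μ U) (c N : ℕ) :
    iIndepFun ((range N ×ˢ range N).restrict (fun (j : ℕ × ℕ) ω => digit U (c, j.1, j.2) ω)) μ := by
  have hm : ∀ i : ↥(range N ×ˢ range N), Measurable
      ((range N ×ˢ range N).restrict (fun (j : ℕ × ℕ) ω => digit U (c, j.1, j.2) ω) i) :=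
    fun i => digit_meas h _
  rw [iIndepFun_iff_map_fun_eq_pi_map fun i => (hm i).aemeasurable]
  refine Measure.ext_of_singleton fun g => ?_
  have : ∀ i, IsProbabilityMeasure (μ.map
      ((range N ×ˢ range N).restrict (fun (j : ℕ × ℕ) ω => digit U (c, j.1, j.2) ω) i)) :=
    fun i => Measure.isProbabilityMeasure_map (hm i).aemeasurable
  rw [Measure.pi_singleton, Measure.map_apply (measurable_pi_lambda _ hm) (measurableSet_singleton g)]
  have h1 : ∀ i, (μ.map ((range N ×ˢ range N).restrict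
      (fun (j : ℕ × ℕ) ω => digit U (c, j.1, j.2) ω) i)) {g i} =
      μ {ω | digit U (c, i.1.1, i.1.2) ω = g i} := by
    intro i
    rw [Measure.map_apply (hm i) (measurableSet_singleton _)]
    rfl
  simp_rw [h1]
  rw [← ENNReal.toReal_eq_toReal_iff' (measure_ne_top _ _)
    (ENNReal.prod_ne_top fun i _ => measure_ne_top _ _), ENNReal.toReal_prod]
  set D : ℕ → ℕ → ℕ := fun r k => if hj : (r, k) ∈ range N ×ˢ range N then g ⟨(r, k), hj⟩ else 0 with hDdef
  have hgD : ∀ i : ↥(range N ×ˢ range N), g i = D i.1.1 i.1.2 := by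
    intro i
    simp only [hDdef]
    rw [dif_pos i.2]
  have h2 : (fun ω i => (range N ×ˢ range N).restrict
      (fun (j : ℕ × ℕ) ω => digit U (c, j.1, j.2) ω) i ω) ⁻¹' {g} =
      {ω | ∀ r < N, ∀ k < N, digit U (c, r, k) ω = D r k} := by
    ext ω
    simp only [Set.mem_preimage, Set.mem_singleton_iff, Set.mem_setOf_eq, funext_iff]
    constructor
    · intro h3 r hr k hk
      have hj : (r, k) ∈ range N ×ˢ range N :=
        Finset.mem_product.2 ⟨Finset.mem_range.2 hr, Finset.mem_range.2 hk⟩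
      have h4 := h3 ⟨(r, k), hj⟩
      rw [hgD] at h4
      exact h4
    · intro h3 i
      obtain ⟨h4, h5⟩ := Finset.mem_product.1 i.2
      rw [hgD]
      exact h3 _ (Finset.mem_range.1 h4) _ (Finset.mem_range.1 h5)
  rw [h2]
  have h3 := box h c N N D
  unfold Measure.real at h3
  rw [h3, ← Finset.prod_product' (range N) (range N)
    (fun r k => (μ {ω | digit U (c, r, k) ω = D r k}).toReal), ← Finset.prod_coe_sort]
  refine Finset.prod_congr rfl fun i _ => ?_
  rw [hgD]

theorem indep_level [IsProbabilityMeasure μ] (h : Prof μ U) (c : ℕ) :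
    iIndepFun (fun (j : ℕ × ℕ) ω => digit U (c, j.1, j.2) ω) μ := by
  rw [iIndepFun_iff_finset]
  intro s
  obtain ⟨N, hN⟩ : ∃ N : ℕ, s ⊆ range N ×ˢ range N := by
    refine ⟨s.sup (fun j => j.1 + j.2) + 1, fun j hj => ?_⟩
    have h1 : j.1 + j.2 ≤ s.sup (fun j => j.1 + j.2) := Finset.le_sup (f := fun j : ℕ × ℕ => j.1 + j.2) hj
    rw [Finset.mem_product, Finset.mem_range, Finset.mem_range]
    omega
  exact (indep_box h c N).precomp (g := fun i : s => (⟨i.1, hN i.2⟩ : ↥(range N ×ˢ range N)))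
    (fun a b hab => Subtype.ext (congrArg (fun x : ↥(range N ×ˢ range N) => x.1) hab))

theorem digit_indep [IsProbabilityMeasure μ] (h : Prof μ U) : iIndepFun (digit U) μ := by
  have h1 : iIndepFun (fun (c : ℕ) ω (j : ℕ × ℕ) => digit U (c, j.1, j.2) ω) μ := by
    have h2 := h.indep.comp (fun (_ : ℕ) (x : ℕ → ℕ) (j : ℕ × ℕ) =>
      if j.1.Prime then x (j.1 ^ (j.2 + 1)) / j.1 ^ j.2 else 0) (fun _ => by
        refine measurable_pi_lambda _ fun j => ?_
        by_cases hp : j.1.Prime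
        · simp only [hp, if_true]
          exact (measurable_from_top (f := fun x : ℕ => x / j.1 ^ j.2)).comp (measurable_pi_apply _)
        · simp only [hp, if_false]
          exact measurable_const)
    exact h2
  exact iIndepFun_uncurry' (X := fun (c : ℕ) (j : ℕ × ℕ) ω => digit U (c, j.1, j.2) ω)
    (fun c j => digit_meas h _) h1 (indep_level h)

/-- The digits are independent and uniform. -/
theorem digit_res [IsProbabilityMeasure μ] (h : Prof μ U) : Res μ (digit U) :=
  ⟨digit_meas h, digit_indep h, fun c r k hr => digit_unif h c r k hr⟩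

end Pool.Agent.L5helper15.GPLink
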