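import Pool.Agent.L5helper32.GR.Defs
import Pool.Agent.Helper923.HMertens

/-!
# The parameters of the model (written by helper15 for helper32)
-/

set_option autoImplicit false

open Finset MeasureTheory ProbabilityTheory Filter

namespace Pool.Agent.L5helper32.GR

namespace Param

lemma w_lt' {p r : ℕ} (hp : p.Prime) (hr : r.Prime) : w p r < r := by
  unfold w
  have h1 : r - 1 ∉ {t ∈ range r | Root p r t} := by
    intro h
    rw [mem_filter] at h
    have h2 := h.2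
    unfold Root at h2
    rw [Nat.sub_add_cancel hr.one_lt.le] at h2
    have h3 : r ^ p ≡ 0 [MOD r] := (Nat.modEq_zero_iff_dvd).2 (dvd_pow_self r hp.ne_zero)
    have h4 := h2.symm.trans h3
    have h5 := (Nat.modEq_zero_iff_dvd).1 h4
    exact hr.one_lt.ne' (Nat.dvd_one.1 h5)
  have h2 : {t ∈ range r | Root p r t} ⊆ (range r).erase (r - 1) := by
    intro t ht
    rw [mem_erase]
    exact ⟨fun h => h1 (h ▸ ht), (mem_filter.1 ht).1⟩
  have h3 := card_le_card h2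
  rw [card_erase_of_mem (mem_range.2 (by have := hr.pos; omega)), card_range] at h3
  have := hr.pos
  omega

lemma w_le' {p r : ℕ} (hp : p.Prime) (hr : r.Prime) : w p r ≤ p := by
  haveI := Fact.mk hr
  unfold w
  classical
  have h1 : ∀ t ∈ {t ∈ range r | Root p r t}, ((t + 1 : ℕ) : ZMod r) ∈
      (Polynomial.nthRoots p (1 : ZMod r)).toFinset := by
    intro t ht
    rw [Multiset.mem_toFinset, Polynomial.mem_nthRoots hp.pos]
    have h2 := (mem_filter.1 ht).2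
    unfold Root at h2
    have h3 := (ZMod.natCast_eq_natCast_iff _ _ _).2 h2
    rw [Nat.cast_pow, Nat.cast_one] at h3
    exact h3
  have h2 : Set.InjOn (fun t : ℕ => ((t + 1 : ℕ) : ZMod r)) ({t ∈ range r | Root p r t} : Finset ℕ) := by
    intro t ht u hu htu
    have ht' := mem_range.1 (mem_filter.1 (mem_coe.1 ht)).1
    have hu' := mem_range.1 (mem_filter.1 (mem_coe.1 hu)).1
    have h3 := (ZMod.natCast_eq_natCast_iff _ _ _).1 htu
    have h4 : t ≡ u [MOD r] := Nat.ModEq.add_right_cancel' 1 h3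
    unfold Nat.ModEq at h4
    rwa [Nat.mod_eq_of_lt ht', Nat.mod_eq_of_lt hu'] at h4
  have h3 := card_le_card_of_injOn _ h1 h2
  refine h3.trans ((Multiset.toFinset_card_le _).trans (Polynomial.card_nthRoots p 1))

lemma mem_pr {a b r : ℕ} : r ∈ pr a b ↔ (a < r ∧ r ≤ b) ∧ r.Prime := by
  unfold pr
  rw [mem_filter, mem_Ioc]

lemma factor_lower {p r : ℕ} (hp : p.Prime) (hr : r.Prime) :
    Real.exp (-((p : ℝ) * (1 / r) + 8 * (p : ℝ) ^ 3 * ((r : ℝ) ^ 2)⁻¹)) ≤ 1 - (w p r : ℝ) / r := by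
  have hp1 : (1 : ℝ) ≤ p := by exact_mod_cast hp.one_lt.le
  have hr0 : (0 : ℝ) < r := by exact_mod_cast hr.pos
  have hw : (w p r : ℝ) ≤ p := by exact_mod_cast w_le' hp hr
  have hw2 : (w p r : ℝ) + 1 ≤ r := by exact_mod_cast w_lt' hp hr
  by_cases h : r ≤ 2 * p
  · have hrp : (r : ℝ) ≤ 2 * p := by exact_mod_cast h
    have h1 : 1 / (2 * (p : ℝ)) ≤ 1 - (w p r : ℝ) / r := by
      have h2 : 1 - (w p r : ℝ) / r = (r - w p r) / r := by field_simp
      rw [h2]
      have h3 : 1 / (r : ℝ) ≤ (r - w p r) / r := by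
        apply div_le_div_of_nonneg_right _ hr0.le
        linarith
      exact (one_div_le_one_div_of_le hr0 hrp).trans h3
    refine le_trans ?_ h1
    have h4 : 1 / (2 * (p : ℝ)) = Real.exp (-Real.log (2 * p)) := by
      rw [Real.exp_neg, Real.exp_log (by positivity), one_div]
    rw [h4]
    apply Real.exp_le_exp.2
    have h5 : Real.log (2 * p) ≤ 2 * p := (Real.log_le_sub_one_of_pos (by positivity)).trans (by linarith)
    have h6 : 2 * (p : ℝ) ≤ 8 * (p : ℝ) ^ 3 * ((r : ℝ) ^ 2)⁻¹ := by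
      rw [← div_eq_mul_inv, le_div_iff₀ (by positivity)]
      have h7 : (r : ℝ) ^ 2 ≤ (2 * p) ^ 2 := pow_le_pow_left₀ hr0.le hrp 2
      nlinarith
    have h8 : 0 ≤ (p : ℝ) * (1 / r) := by positivity
    linarith
  · have hrp : 2 * (p : ℝ) < r := by
      have := not_le.1 h
      exact_mod_cast this
    set x : ℝ := p / r with hx
    have hx0 : 0 < x := by positivity
    have hx2 : x < 1 / 2 := by
      rw [hx, div_lt_iff₀ hr0]
      linarith
    have h1 : 1 - x ≤ 1 - (w p r : ℝ) / r := by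
      have : (w p r : ℝ) / r ≤ x := div_le_div_of_nonneg_right hw hr0.le
      linarith
    refine le_trans ?_ h1
    have h2 := Real.one_sub_inv_le_log_of_pos (show 0 < 1 - x by linarith)
    have h3 : -(x + 2 * x ^ 2) ≤ 1 - (1 - x)⁻¹ := by
      have h4 : (1 - x)⁻¹ ≤ 1 + x + 2 * x ^ 2 := by
        rw [inv_le_comm₀ (by linarith) (by positivity)]
        rw [inv_le_iff_one_le_mul₀ (by positivity)]
        nlinarith [sq_nonneg x, mul_pos hx0 hx0]
      linarith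
    have h5 : Real.exp (-(x + 2 * x ^ 2)) ≤ 1 - x := by
      rw [← Real.exp_log (show 0 < 1 - x by linarith)]
      exact Real.exp_le_exp.2 (h3.trans h2)
    refine le_trans (Real.exp_le_exp.2 ?_) h5
    have h6 : x = (p : ℝ) * (1 / r) := by rw [hx]; ring
    have h7 : 2 * x ^ 2 ≤ 8 * (p : ℝ) ^ 3 * ((r : ℝ) ^ 2)⁻¹ := by
      have h8 : 2 * x ^ 2 = 2 * (p : ℝ) ^ 2 * ((r : ℝ) ^ 2)⁻¹ := by rw [hx]; field_simp
      rw [h8]
      apply mul_le_mul_of_nonneg_right _ (by positivity)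
      nlinarith [sq_nonneg (p : ℝ)]
    rw [← h6]
    linarith

lemma sum_inv_sq (y : ℕ) : ∑ r ∈ pr 0 y, ((r : ℝ) ^ 2)⁻¹ ≤ 2 := by
  have h1 : ∑ r ∈ pr 0 y, ((r : ℝ) ^ 2)⁻¹ ≤ ∑ r ∈ Ioc 0 y, ((r : ℝ) ^ 2)⁻¹ :=
    sum_le_sum_of_subset_of_nonneg (filter_subset _ _) fun _ _ _ => by positivity
  refine h1.trans ?_
  rcases Nat.eq_zero_or_pos y with rfl | hy
  · simp
  · have h2 : Ioc 0 y = insert 1 (Ioc 1 y) := by
      ext m
      simp only [mem_Ioc, mem_insert]
      omega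
    rw [h2, sum_insert (by simp)]
    have h3 := sum_Ioc_inv_sq_le_sub (α := ℝ) (k := 1) (n := y) one_ne_zero hy
    have h4 : (0 : ℝ) ≤ (y : ℝ)⁻¹ := by positivity
    norm_num at h3 ⊢
    linarith

lemma weier {ι : Type} (s : Finset ι) (x : ι → ℝ) (h0 : ∀ i ∈ s, 0 ≤ x i) (h1 : ∀ i ∈ s, x i ≤ 1) :
    1 - ∏ i ∈ s, (1 - x i) ≤ ∑ i ∈ s, x i := by
  classical
  induction s using Finset.induction_on with
  | empty => simp
  | insert a s ha ih =>
    rw [prod_insert ha, sum_insert ha]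
    have ih' := ih (fun i hi => h0 i (mem_insert_of_mem hi)) (fun i hi => h1 i (mem_insert_of_mem hi))
    have h2 : ∏ i ∈ s, (1 - x i) ≤ 1 := prod_le_one
      (fun i hi => by linarith [h1 i (mem_insert_of_mem hi)])
      (fun i hi => by linarith [h0 i (mem_insert_of_mem hi)])
    have h3 := h0 a (mem_insert_self _ _)
    nlinarith

end Param

open Param

theorem sg_lower {p : ℕ} (hp : p.Prime) : ∃ c : ℝ, 0 < c ∧ ∀ y : ℕ, 2 ≤ y →
    c / (Real.log y) ^ p ≤ sg p 0 y := by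
  obtain ⟨C, hC, hM⟩ := Pool.Agent.Helper923.HMertens.mertens_ratio
  have hl2 : 0 < Real.log 2 := Real.log_pos (by norm_num)
  refine ⟨Real.exp (-((p : ℝ) * (1 / 2 + C / Real.log 2) + 8 * (p : ℝ) ^ 3 * 2)) * (Real.log 2) ^ p,
    by positivity, fun y hy => ?_⟩
  have hy2 : (2 : ℝ) ≤ y := by exact_mod_cast hy
  have hly : 0 < Real.log y := Real.log_pos (by linarith)
  have h1 : ∑ r ∈ pr 0 y, (1 : ℝ) / r ≤ 1 / 2 + (Real.log (Real.log y / Real.log 2) + C / Real.log 2) := by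
    have h2 : pr 0 y = insert 2 ((Ioc 2 y).filter Nat.Prime) := by
      ext r
      rw [mem_pr, mem_insert, mem_filter, mem_Ioc]
      constructor
      · rintro ⟨⟨h3, h4⟩, h5⟩
        have := h5.two_le
        by_cases h6 : r = 2
        · exact Or.inl h6
        · exact Or.inr ⟨⟨by omega, h4⟩, h5⟩
      · rintro (h3 | ⟨⟨h3, h4⟩, h5⟩)
        · rw [h3]
          exact ⟨⟨by norm_num, hy⟩, Nat.prime_two⟩
        · exact ⟨⟨by omega, h4⟩, h5⟩
    rw [h2, sum_insert (by simp)]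
    have h3 := (abs_le.1 (hM 2 y le_rfl hy)).2
    push_cast at h3 ⊢
    linarith
  have h4 : ∏ r ∈ pr 0 y, Real.exp (-((p : ℝ) * (1 / r) + 8 * (p : ℝ) ^ 3 * ((r : ℝ) ^ 2)⁻¹)) ≤ sg p 0 y := by
    unfold sg
    exact prod_le_prod (fun _ _ => (Real.exp_pos _).le) fun r hr => factor_lower hp (mem_pr.1 hr).2
  refine le_trans ?_ h4
  rw [← Real.exp_sum, sum_neg_distrib, sum_add_distrib, ← mul_sum, ← mul_sum]
  have h5 := sum_inv_sq y
  have hp0 : (0 : ℝ) ≤ p := Nat.cast_nonneg _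
  have h6 : (Real.log 2) ^ p / (Real.log y) ^ p = Real.exp (-((p : ℝ) * Real.log (Real.log y / Real.log 2))) := by
    rw [← div_pow, Real.exp_neg, mul_comm, ← Real.rpow_def_of_pos (by positivity), Real.rpow_natCast, ← inv_pow,
      inv_div]
  rw [mul_div_assoc, h6, ← Real.exp_add]
  apply Real.exp_le_exp.2
  have h7 := mul_le_mul_of_nonneg_left h1 hp0
  have h8 : 8 * (p : ℝ) ^ 3 * ∑ r ∈ pr 0 y, ((r : ℝ) ^ 2)⁻¹ ≤ 8 * (p : ℝ) ^ 3 * 2 :=
    mul_le_mul_of_nonneg_left h5 (by positivity)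
  linarith

theorem sg_ratio {p : ℕ} (hp : p.Prime) : ∃ C : ℝ, 0 < C ∧ ∀ a b : ℕ, 2 ≤ a → a ≤ b →
    1 - sg p a b ≤ C * (Real.log b / Real.log a - 1 + 1 / Real.log a) := by
  obtain ⟨C, hC, hM⟩ := Pool.Agent.Helper923.HMertens.mertens_ratio
  have hp1 : (1 : ℝ) ≤ p := by exact_mod_cast hp.one_lt.le
  refine ⟨p * (1 + C), by positivity, fun a b ha hab => ?_⟩
  have ha2 : (2 : ℝ) ≤ a := by exact_mod_cast ha
  have hb2 : (2 : ℝ) ≤ b := by exact_mod_cast ha.trans hab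
  have hla : 0 < Real.log a := Real.log_pos (by linarith)
  have hlb : 0 < Real.log b := Real.log_pos (by linarith)
  have hab' : Real.log a ≤ Real.log b := Real.log_le_log (by linarith) (by exact_mod_cast hab)
  have h1 : 1 - sg p a b ≤ ∑ r ∈ pr a b, (w p r : ℝ) / r := by
    unfold sg
    apply weier
    · intro r _
      positivity
    · intro r hr
      have hr' := (mem_pr.1 hr).2
      apply div_le_one_of_le₀ _ (Nat.cast_nonneg _)
      exact_mod_cast (w_lt' hp hr').le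
  have h2 : ∑ r ∈ pr a b, (w p r : ℝ) / r ≤ p * ∑ r ∈ pr a b, (1 : ℝ) / r := by
    rw [mul_sum]
    refine sum_le_sum fun r hr => ?_
    have h3 : (w p r : ℝ) ≤ p := by exact_mod_cast w_le' hp (mem_pr.1 hr).2
    rw [mul_one_div]
    exact div_le_div_of_nonneg_right h3 (Nat.cast_nonneg _)
  have h3 : ∑ r ∈ pr a b, (1 : ℝ) / r ≤ Real.log (Real.log b / Real.log a) + C / Real.log a := by
    have := (abs_le.1 (hM a b ha hab)).2
    unfold pr
    linarith
  have h4 : Real.log (Real.log b / Real.log a) ≤ Real.log b / Real.log a - 1 :=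
    Real.log_le_sub_one_of_pos (by positivity)
  have h5 : 1 ≤ Real.log b / Real.log a := (one_le_div hla).2 hab'
  have h6 : 0 ≤ 1 / Real.log a := by positivity
  have h7 : C / Real.log a = C * (1 / Real.log a) := by ring
  rw [h7] at h3
  have h8 : ∑ r ∈ pr a b, (1 : ℝ) / r ≤ (1 + C) * (Real.log b / Real.log a - 1 + 1 / Real.log a) := by
    nlinarith
  calc 1 - sg p a b ≤ p * ∑ r ∈ pr a b, (1 : ℝ) / r := h1.trans h2
    _ ≤ p * ((1 + C) * (Real.log b / Real.log a - 1 + 1 / Real.log a)) :=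
        mul_le_mul_of_nonneg_left h8 (by linarith)
    _ = _ := by ring

theorem params {p : ℕ} (hp : p.Prime) (C₁ : ℝ) : ∃ C : ℝ, 0 < C ∧ ∃ Y₀ : ℕ, ∀ Y ≥ Y₀,
    ∃ j y G : ℕ, 1 ≤ G ∧ 1 ≤ y ∧ Y < G ^ 2 ∧ 8 * (j * (y + G)) ≤ Y ∧
      (1 - sg p y (Y + 2)) + j * ((C₁ * (Y : ℝ) ^ (3 / 4 : ℝ) + p * y) / G) + (1 - sg p 0 y) ^ j
        ≤ C * (Real.log (Real.log Y) / Real.log Y) := by
  obtain ⟨c, hc, hlow⟩ := sg_lower hp
  obtain ⟨C, hC, hrat⟩ := sg_ratio hp
  have hp1 : (1 : ℝ) ≤ p := by exact_mod_cast hp.one_lt.le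
  refine ⟨2 * C * (4 * p + 10) + 32 * |C₁| + 32 * p + 1 / c, by positivity, ?_⟩
  have hev1 : ∀ᶠ x : ℝ in atTop, 2 ^ 18 * (Real.log x) ^ (8 * (p + 1) + 4) ≤ x := by
    have h := (Real.isLittleO_pow_log_id_atTop (n := 8 * (p + 1) + 4)).bound
      (show (0 : ℝ) < 1 / 2 ^ 18 by positivity)
    filter_upwards [h, eventually_ge_atTop (1 : ℝ)] with x hx hx1
    rw [Real.norm_eq_abs, Real.norm_eq_abs, id, abs_of_nonneg (show (0 : ℝ) ≤ x by linarith),
      abs_of_nonneg (pow_nonneg (Real.log_nonneg hx1) _)] at hx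
    linarith
  have hev2 : ∀ᶠ x : ℝ in atTop, 3 ≤ Real.log x := Real.tendsto_log_atTop.eventually_ge_atTop 3
  obtain ⟨Y₀, hY₀⟩ := eventually_atTop.1 (tendsto_natCast_atTop_atTop.eventually (hev1.and hev2))
  refine ⟨max Y₀ 1, fun Y hY => ?_⟩
  obtain ⟨hE, hl3⟩ := hY₀ Y (le_trans (le_max_left _ _) hY)
  have hY1 : 1 ≤ Y := le_trans (le_max_right _ _) hY
  have hYpos : (0 : ℝ) < Y := by exact_mod_cast hY1
  set l : ℝ := Real.log Y with hl
  have hl0 : 0 < l := by linarith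
  have hlam : 1 ≤ Real.log l := by
    rw [← Real.log_exp 1]
    apply Real.log_le_log (Real.exp_pos _)
    linarith [Real.exp_one_lt_d9]
  set j : ℕ := ⌈l ^ (p + 1)⌉₊ with hj
  have hlp1 : 1 ≤ l ^ (p + 1) := one_le_pow₀ (by linarith)
  have hlp : l ≤ l ^ (p + 1) := by
    calc l = l ^ 1 := (pow_one l).symm
      _ ≤ l ^ (p + 1) := pow_le_pow_right₀ (by linarith) (by omega)
  have hj1 : l ^ (p + 1) ≤ j := Nat.le_ceil _
  have hj2 : (j : ℝ) ≤ 2 * l ^ (p + 1) := by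
    have := Nat.ceil_lt_add_one (show 0 ≤ l ^ (p + 1) by positivity)
    linarith
  have hj3 : (3 : ℝ) ≤ j := by linarith
  have hj0 : (0 : ℝ) < j := by linarith
  have hj3n : 3 ≤ j := by exact_mod_cast hj3
  -- the main size condition
  have hbig : 1024 * (j : ℝ) ^ 8 * l ^ 4 ≤ Y := by
    have h1 : (j : ℝ) ^ 8 ≤ (2 * l ^ (p + 1)) ^ 8 := pow_le_pow_left₀ hj0.le hj2 8
    have h2 : 1024 * (2 * l ^ (p + 1)) ^ 8 * l ^ 4 = 2 ^ 18 * l ^ (8 * (p + 1) + 4) := by
      rw [mul_pow, ← pow_mul, pow_add, mul_comm (p + 1) 8]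
      ring
    calc 1024 * (j : ℝ) ^ 8 * l ^ 4 ≤ 1024 * (2 * l ^ (p + 1)) ^ 8 * l ^ 4 := by gcongr
      _ = 2 ^ 18 * l ^ (8 * (p + 1) + 4) := h2
      _ ≤ Y := hE
  have hl4 : 1 ≤ l ^ 4 := one_le_pow₀ (by linarith)
  have hbig2 : 1024 * (j : ℝ) ^ 8 ≤ Y := by
    have : 0 ≤ 1024 * (j : ℝ) ^ 8 := by positivity
    nlinarith
  have hjpow : ∀ k : ℕ, k ≤ 8 → (j : ℝ) ^ k ≤ (j : ℝ) ^ 8 := fun k hk =>
    pow_le_pow_right₀ (by linarith) hk
  have hj2' := hjpow 2 (by norm_num)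
  have hj1' := hjpow 1 (by norm_num)
  rw [pow_one] at hj1'
  have hj4' := hjpow 4 (by norm_num)
  set y : ℕ := Y / j ^ 4 with hy
  set G : ℕ := Y / (16 * j) with hG
  have hy_le : (y : ℝ) ≤ Y / (j : ℝ) ^ 4 := by
    have h := Nat.cast_div_le (α := ℝ) (m := Y) (n := j ^ 4)
    rw [Nat.cast_pow] at h
    exact h
  have hG_le : (G : ℝ) ≤ Y / (16 * j) := by
    have h := Nat.cast_div_le (α := ℝ) (m := Y) (n := 16 * j)
    push_cast at h
    exact h
  have hy_ge : (Y : ℝ) / (2 * (j : ℝ) ^ 4) ≤ y := by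
    have h1 : (Y : ℝ) / ((j ^ 4 : ℕ) : ℝ) < ((Y / j ^ 4 : ℕ) : ℝ) + 1 := by
      rw [div_lt_iff₀ (by positivity)]
      have h2 := Nat.lt_div_mul_add (a := Y) (b := j ^ 4) (by positivity)
      have h3 : (Y : ℝ) < (Y / j ^ 4 : ℕ) * (j ^ 4 : ℕ) + (j ^ 4 : ℕ) := by exact_mod_cast h2
      linarith
    push_cast at h1
    have h4 : 1 ≤ (Y : ℝ) / (2 * (j : ℝ) ^ 4) := by
      rw [le_div_iff₀ (by positivity)]
      linarith
    have h5 : (Y : ℝ) / (j : ℝ) ^ 4 = 2 * (Y / (2 * (j : ℝ) ^ 4)) := by field_simp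
    rw [h5] at h1
    have h6 : ((Y / j ^ 4 : ℕ) : ℝ) = (y : ℝ) := rfl
    linarith
  have hG_ge : (Y : ℝ) / (32 * j) ≤ G := by
    have h1 : (Y : ℝ) / ((16 * j : ℕ) : ℝ) < ((Y / (16 * j) : ℕ) : ℝ) + 1 := by
      rw [div_lt_iff₀ (by positivity)]
      have h2 := Nat.lt_div_mul_add (a := Y) (b := 16 * j) (by positivity)
      have h3 : (Y : ℝ) < (Y / (16 * j) : ℕ) * (16 * j : ℕ) + (16 * j : ℕ) := by exact_mod_cast h2
      linarith
    push_cast at h1
    have h4 : 1 ≤ (Y : ℝ) / (32 * j) := by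
      rw [le_div_iff₀ (by positivity)]
      linarith
    have h5 : (Y : ℝ) / (16 * j) = 2 * (Y / (32 * j)) := by field_simp; norm_num
    rw [h5] at h1
    have h6 : ((Y / (16 * j) : ℕ) : ℝ) = (G : ℝ) := rfl
    linarith
  have hj4pos : (0 : ℝ) < (j : ℝ) ^ 4 := by positivity
  -- `y` is at least the square root of `Y`
  have hsq : Real.sqrt Y ≤ y := by
    refine le_trans ?_ hy_ge
    rw [le_div_iff₀ (by positivity)]
    have h1 : 2 * (j : ℝ) ^ 4 ≤ Real.sqrt Y := by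
      apply Real.le_sqrt_of_sq_le
      have : (2 * (j : ℝ) ^ 4) ^ 2 = 4 * (j : ℝ) ^ 8 := by ring
      rw [this]
      have : (0 : ℝ) ≤ (j : ℝ) ^ 8 := by positivity
      linarith
    calc Real.sqrt Y * (2 * (j : ℝ) ^ 4) ≤ Real.sqrt Y * Real.sqrt Y :=
          mul_le_mul_of_nonneg_left h1 (Real.sqrt_nonneg _)
      _ = Y := Real.mul_self_sqrt hYpos.le
  have h2sq : (2 : ℝ) ≤ Real.sqrt Y := by
    apply Real.le_sqrt_of_sq_le
    have : (1 : ℝ) ≤ (j : ℝ) ^ 8 := one_le_pow₀ (by linarith)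
    linarith
  have hy2r : (2 : ℝ) ≤ y := h2sq.trans hsq
  have hy2 : 2 ≤ y := by exact_mod_cast hy2r
  have hlogy : l / 2 ≤ Real.log y := by
    have h1 := Real.log_le_log (by linarith) hsq
    rw [Real.log_sqrt hYpos.le] at h1
    exact h1
  have hlogypos : 0 < Real.log y := by linarith
  have hyY : y ≤ Y := Nat.div_le_self _ _
  have hlogyY : Real.log y ≤ l := Real.log_le_log (by linarith) (by exact_mod_cast hyY)
  have hG1r : (1 : ℝ) ≤ G := by
    refine le_trans ?_ hG_ge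
    rw [le_div_iff₀ (by positivity)]
    linarith
  have hG1 : 1 ≤ G := by exact_mod_cast hG1r
  have hGpos : (0 : ℝ) < G := by linarith
  refine ⟨j, y, G, hG1, by omega, ?_, ?_, ?_⟩
  · -- `Y < G ^ 2`
    have h1 : (Y : ℝ) < (G : ℝ) ^ 2 := by
      have h2 : ((Y : ℝ) / (32 * j)) ^ 2 ≤ (G : ℝ) ^ 2 := pow_le_pow_left₀ (by positivity) hG_ge 2
      refine lt_of_lt_of_le ?_ h2
      rw [div_pow, lt_div_iff₀ (by positivity)]
      have h3 : (32 * (j : ℝ)) ^ 2 = 1024 * (j : ℝ) ^ 2 := by ring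
      rw [h3, sq (Y : ℝ)]
      apply mul_lt_mul_of_pos_left _ hYpos
      have h4 : (j : ℝ) ^ 2 < (j : ℝ) ^ 8 := pow_lt_pow_right₀ (by linarith) (by norm_num)
      linarith
    exact_mod_cast h1
  · -- the sizes
    have h1 : 8 * ((j : ℝ) * (y + G)) ≤ Y := by
      have h2 : (j : ℝ) * y ≤ Y / (j : ℝ) ^ 3 := by
        calc (j : ℝ) * y ≤ j * (Y / (j : ℝ) ^ 4) := mul_le_mul_of_nonneg_left hy_le hj0.le
          _ = Y / (j : ℝ) ^ 3 := by field_simp
      have h3 : (j : ℝ) * G ≤ Y / 16 := by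
        calc (j : ℝ) * G ≤ j * (Y / (16 * j)) := mul_le_mul_of_nonneg_left hG_le hj0.le
          _ = Y / 16 := by field_simp
      have h4 : (Y : ℝ) / (j : ℝ) ^ 3 ≤ Y / 16 := by
        apply div_le_div_of_nonneg_left hYpos.le (by norm_num)
        have : (3 : ℝ) ^ 3 ≤ (j : ℝ) ^ 3 := pow_le_pow_left₀ (by norm_num) hj3 3
        linarith
      linarith
    exact_mod_cast h1
  · -- the estimate
    have hT1 : 1 - sg p y (Y + 2) ≤ 2 * C * (4 * p + 10) * (Real.log l / l) := by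
      have h1 := hrat y (Y + 2) hy2 (by omega)
      refine h1.trans ?_
      have h2 : Real.log ((Y + 2 : ℕ) : ℝ) ≤ l + Real.log 2 := by
        rw [hl, ← Real.log_mul hYpos.ne' (by norm_num)]
        apply Real.log_le_log (by positivity)
        push_cast
        have : (2 : ℝ) ≤ Y := by linarith [show (y : ℝ) ≤ Y by exact_mod_cast hyY]
        linarith
      have h3 : l - (Real.log 2 + 4 * Real.log j) ≤ Real.log y := by
        have h4 := Real.log_le_log (by positivity) hy_ge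
        rw [Real.log_div hYpos.ne' (by positivity), Real.log_mul (by norm_num) (by positivity),
          Real.log_pow] at h4
        push_cast at h4
        exact h4
      have h5 : Real.log j ≤ Real.log 2 + (p + 1) * Real.log l := by
        have h6 := Real.log_le_log hj0 hj2
        rw [Real.log_mul (by norm_num) (by positivity), Real.log_pow] at h6
        push_cast at h6
        exact h6
      have hlog2 : Real.log 2 ≤ 0.7 := by linarith [Real.log_two_lt_d9]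
      have h7 : Real.log ((Y + 2 : ℕ) : ℝ) / Real.log y - 1 + 1 / Real.log y =
          (Real.log ((Y + 2 : ℕ) : ℝ) - Real.log y + 1) / Real.log y := by field_simp
      rw [h7]
      have h8 : Real.log ((Y + 2 : ℕ) : ℝ) - Real.log y + 1 ≤ (4 * p + 10) * Real.log l := by
        have h9 : (0 : ℝ) ≤ p := by linarith
        nlinarith
      have h9 : (Real.log ((Y + 2 : ℕ) : ℝ) - Real.log y + 1) / Real.log y ≤
          ((4 * p + 10) * Real.log l) / (l / 2) := by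
        apply div_le_div₀ (by positivity) h8 (by positivity) hlogy
      have h10 : ((4 * (p : ℝ) + 10) * Real.log l) / (l / 2) = 2 * (4 * p + 10) * (Real.log l / l) := by
        field_simp
      rw [h10] at h9
      calc C * ((Real.log ((Y + 2 : ℕ) : ℝ) - Real.log y + 1) / Real.log y) ≤
            C * (2 * (4 * p + 10) * (Real.log l / l)) := mul_le_mul_of_nonneg_left h9 hC.le
        _ = _ := by ring
    have hinv : 1 / l ≤ Real.log l / l := div_le_div_of_nonneg_right hlam hl0.le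
    have hT2 : (j : ℝ) * ((C₁ * (Y : ℝ) ^ (3 / 4 : ℝ) + p * y) / G) ≤ (32 * |C₁| + 32 * p) * (Real.log l / l) := by
      have hY34 : (0 : ℝ) ≤ (Y : ℝ) ^ (3 / 4 : ℝ) := by positivity
      have h1 : C₁ * (Y : ℝ) ^ (3 / 4 : ℝ) + p * y ≤ |C₁| * (Y : ℝ) ^ (3 / 4 : ℝ) + p * (Y / (j : ℝ) ^ 4) := by
        have := mul_le_mul_of_nonneg_right (le_abs_self C₁) hY34
        have := mul_le_mul_of_nonneg_left hy_le (show (0 : ℝ) ≤ p by linarith)
        linarith
      have h2 : (C₁ * (Y : ℝ) ^ (3 / 4 : ℝ) + p * y) / G ≤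
          (|C₁| * (Y : ℝ) ^ (3 / 4 : ℝ) + p * (Y / (j : ℝ) ^ 4)) / (Y / (32 * j)) :=
        (div_le_div_of_nonneg_right h1 hGpos.le).trans
          (div_le_div_of_nonneg_left (by positivity) (by positivity) hG_ge)
      have h3 : (j : ℝ) * ((|C₁| * (Y : ℝ) ^ (3 / 4 : ℝ) + p * (Y / (j : ℝ) ^ 4)) / (Y / (32 * j))) =
          32 * |C₁| * ((j : ℝ) ^ 2 * (Y : ℝ) ^ (3 / 4 : ℝ) / Y) + 32 * p * (1 / (j : ℝ) ^ 2) := by
        field_simp
      have h4 : (j : ℝ) ^ 2 * (Y : ℝ) ^ (3 / 4 : ℝ) / Y ≤ 1 / l := by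
        rw [div_le_div_iff₀ hYpos hl0, one_mul]
        have h5 : (j : ℝ) ^ 2 * l ≤ (Y : ℝ) ^ (1 / 4 : ℝ) := by
          have h6 : (j : ℝ) ^ 2 * l = (((j : ℝ) ^ 2 * l) ^ 4) ^ (1 / 4 : ℝ) := by
            have h := Real.pow_rpow_inv_natCast (show 0 ≤ (j : ℝ) ^ 2 * l by positivity)
              (show (4 : ℕ) ≠ 0 by norm_num)
            rw [show (1 / 4 : ℝ) = ((4 : ℕ) : ℝ)⁻¹ by norm_num, h]
          rw [h6]
          apply Real.rpow_le_rpow (by positivity) _ (by norm_num)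
          have h7 : ((j : ℝ) ^ 2 * l) ^ 4 = (j : ℝ) ^ 8 * l ^ 4 := by ring
          rw [h7]
          have : 0 ≤ (j : ℝ) ^ 8 * l ^ 4 := by positivity
          linarith
        calc (j : ℝ) ^ 2 * (Y : ℝ) ^ (3 / 4 : ℝ) * l = ((j : ℝ) ^ 2 * l) * (Y : ℝ) ^ (3 / 4 : ℝ) := by ring
          _ ≤ (Y : ℝ) ^ (1 / 4 : ℝ) * (Y : ℝ) ^ (3 / 4 : ℝ) := mul_le_mul_of_nonneg_right h5 hY34
          _ = Y := by rw [← Real.rpow_add hYpos]; norm_num
      have h8 : 1 / (j : ℝ) ^ 2 ≤ 1 / l := by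
        apply one_div_le_one_div_of_le hl0
        nlinarith
      calc (j : ℝ) * ((C₁ * (Y : ℝ) ^ (3 / 4 : ℝ) + p * y) / G) ≤
            j * ((|C₁| * (Y : ℝ) ^ (3 / 4 : ℝ) + p * (Y / (j : ℝ) ^ 4)) / (Y / (32 * j))) :=
            mul_le_mul_of_nonneg_left h2 hj0.le
        _ = 32 * |C₁| * ((j : ℝ) ^ 2 * (Y : ℝ) ^ (3 / 4 : ℝ) / Y) + 32 * p * (1 / (j : ℝ) ^ 2) := h3
        _ ≤ 32 * |C₁| * (1 / l) + 32 * p * (1 / l) := by gcongr
        _ = (32 * |C₁| + 32 * p) * (1 / l) := by ring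
        _ ≤ (32 * |C₁| + 32 * p) * (Real.log l / l) := mul_le_mul_of_nonneg_left hinv (by positivity)
    have hT3 : (1 - sg p 0 y) ^ j ≤ 1 / c * (Real.log l / l) := by
      have h1 := hlow y hy2
      have hsg1 : sg p 0 y ≤ 1 := by
        unfold sg
        refine prod_le_one (fun r hr => ?_) (fun r hr => ?_)
        · have hr' := (mem_pr.1 hr).2
          have : (w p r : ℝ) / r ≤ 1 := by
            apply div_le_one_of_le₀ _ (Nat.cast_nonneg _)
            exact_mod_cast (w_lt' hp hr').le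
          linarith
        · have : 0 ≤ (w p r : ℝ) / r := by positivity
          linarith
      have h2 : c / l ^ p ≤ sg p 0 y := by
        refine le_trans ?_ h1
        apply div_le_div_of_nonneg_left hc.le (by positivity)
        exact pow_le_pow_left₀ hlogypos.le hlogyY p
      have h3 : (1 - sg p 0 y) ^ j ≤ Real.exp (-(j * sg p 0 y)) := by
        have h4 : 1 - sg p 0 y ≤ Real.exp (-sg p 0 y) := by
          have := Real.add_one_le_exp (-sg p 0 y)
          linarith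
        calc (1 - sg p 0 y) ^ j ≤ (Real.exp (-sg p 0 y)) ^ j := pow_le_pow_left₀ (by linarith) h4 j
          _ = Real.exp (-(j * sg p 0 y)) := by rw [← Real.exp_nat_mul]; ring_nf
      have h5 : c * l ≤ j * sg p 0 y := by
        calc c * l = l ^ (p + 1) * (c / l ^ p) := by rw [pow_succ]; field_simp
          _ ≤ j * sg p 0 y := mul_le_mul hj1 h2 (by positivity) hj0.le
      have h6 : Real.exp (-(j * sg p 0 y)) ≤ 1 / (c * l) := by
        have h7 : Real.exp (-(j * sg p 0 y)) ≤ Real.exp (-(c * l)) := Real.exp_le_exp.2 (by linarith)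
        refine h7.trans ?_
        rw [Real.exp_neg, ← one_div]
        apply one_div_le_one_div_of_le (by positivity)
        linarith [Real.add_one_le_exp (c * l)]
      calc (1 - sg p 0 y) ^ j ≤ 1 / (c * l) := h3.trans h6
        _ = 1 / c * (1 / l) := by rw [one_div_mul_one_div]
        _ ≤ 1 / c * (Real.log l / l) := mul_le_mul_of_nonneg_left hinv (by positivity)
    have hsum := add_le_add (add_le_add hT1 hT2) hT3
    refine hsum.trans (le_of_eq ?_)
    ring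

end Pool.Agent.L5helper32.GR
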